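import Mathlib
import Pool.Agent.H964.CW.Stm
import Pool.Agent.H81.QC.TORA

/-! # Project CW: overlaps of weights that evolve with a drift (NB) -/

set_option autoImplicit false

open Finset

namespace Pool.Agent.H92.CW

open Pool.Agent.H964.QC Pool.Agent.H964.CW
open Pool.Agent.H81.QC (q1_nonneg q1_neg sum_shift q1_conv t_TORA)

variable {M : ℕ} [NeZero M]

/-- average over the steps of the second coordinate -/
noncomputable def Te (f : ZMod M × ZMod M → ℝ) (z : ZMod M × ZMod M) : ℝ :=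
  (f (z.1, z.2 - 1) + f (z.1, z.2 + 1)) / 2

/-- average over the steps -/
noncomputable def T0 (f : ZMod M × ZMod M → ℝ) (z : ZMod M × ZMod M) : ℝ :=
  (Te f (z.1 - 1, z.2) + Te f (z.1 + 1, z.2)) / 2

/-- step with drift -/
noncomputable def kop (a : ℝ) (f : ZMod M × ZMod M → ℝ) (z : ZMod M × ZMod M) : ℝ :=
  (1 + a) / 2 * Te f (z.1 - 1, z.2) + (1 - a) / 2 * Te f (z.1 + 1, z.2)

theorem Te_kop (a : ℝ) (f : ZMod M × ZMod M → ℝ) : Te (kop a f) = kop a (Te f) := by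
  funext z
  simp only [Te, kop]
  ring

theorem T0_kop (a : ℝ) (f : ZMod M × ZMod M → ℝ) : T0 (kop a f) = kop a (T0 f) := by
  funext z
  simp only [T0, Te, kop, sub_add_cancel, add_sub_cancel_right]
  ring

theorem sum_sh1 (h : ZMod M × ZMod M → ℝ) (c : ZMod M) :
    ∑ z : ZMod M × ZMod M, h (z.1 + c, z.2) = ∑ z, h z := by
  rw [Fintype.sum_prod_type, Fintype.sum_prod_type]
  exact sum_shift (fun x => ∑ y, h (x, y)) c

theorem sum_sh2 (h : ZMod M × ZMod M → ℝ) (c : ZMod M) :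
    ∑ z : ZMod M × ZMod M, h (z.1, z.2 + c) = ∑ z, h z := by
  rw [Fintype.sum_prod_type, Fintype.sum_prod_type]
  exact Finset.sum_congr rfl fun x _ => sum_shift (fun y => h (x, y)) c

theorem sum_sh1' (h : ZMod M × ZMod M → ℝ) (c : ZMod M) :
    ∑ z : ZMod M × ZMod M, h (z.1 - c, z.2) = ∑ z, h z := by
  simp only [sub_eq_add_neg]
  exact sum_sh1 h (-c)

theorem sum_sh2' (h : ZMod M × ZMod M → ℝ) (c : ZMod M) :
    ∑ z : ZMod M × ZMod M, h (z.1, z.2 - c) = ∑ z, h z := by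
  simp only [sub_eq_add_neg]
  exact sum_sh2 h (-c)

theorem kop_sq (a : ℝ) (f : ZMod M × ZMod M → ℝ) :
    ∑ z, (kop a f z) ^ 2 = (1 - a ^ 2) * ∑ z, (T0 f z) ^ 2 + a ^ 2 * ∑ z, (Te f z) ^ 2 := by
  have h1 := sum_sh1 (fun z => (Te f z) ^ 2) 1
  have h2 := sum_sh1' (fun z => (Te f z) ^ 2) 1
  have e1 : ∑ z, (kop a f z) ^ 2 = (1 + a) ^ 2 / 4 * (∑ z : ZMod M × ZMod M, (Te f (z.1 - 1, z.2)) ^ 2)
      + (1 - a) ^ 2 / 4 * (∑ z : ZMod M × ZMod M, (Te f (z.1 + 1, z.2)) ^ 2)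
      + (1 - a ^ 2) / 2 * ∑ z : ZMod M × ZMod M, Te f (z.1 - 1, z.2) * Te f (z.1 + 1, z.2) := by
    rw [Finset.mul_sum, Finset.mul_sum, Finset.mul_sum, ← Finset.sum_add_distrib,
      ← Finset.sum_add_distrib]
    refine Finset.sum_congr rfl fun z _ => ?_
    simp only [kop]
    ring
  have e2 : ∑ z, (T0 f z) ^ 2 = 1 / 4 * (∑ z : ZMod M × ZMod M, (Te f (z.1 - 1, z.2)) ^ 2)
      + 1 / 4 * (∑ z : ZMod M × ZMod M, (Te f (z.1 + 1, z.2)) ^ 2)
      + 1 / 2 * ∑ z : ZMod M × ZMod M, Te f (z.1 - 1, z.2) * Te f (z.1 + 1, z.2) := by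
    rw [Finset.mul_sum, Finset.mul_sum, Finset.mul_sum, ← Finset.sum_add_distrib,
      ← Finset.sum_add_distrib]
    refine Finset.sum_congr rfl fun z _ => ?_
    simp only [T0]
    ring
  rw [e1, e2, h1, h2]
  ring

theorem T0_le (f : ZMod M × ZMod M → ℝ) : ∑ z, (T0 f z) ^ 2 ≤ ∑ z, (Te f z) ^ 2 := by
  have h1 := sum_sh1 (fun z => (Te f z) ^ 2) 1
  have h2 := sum_sh1' (fun z => (Te f z) ^ 2) 1
  have h3 : ∑ z, (T0 f z) ^ 2 ≤ 1 / 2 * (∑ z : ZMod M × ZMod M, (Te f (z.1 - 1, z.2)) ^ 2)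
      + 1 / 2 * (∑ z : ZMod M × ZMod M, (Te f (z.1 + 1, z.2)) ^ 2) := by
    rw [Finset.mul_sum, Finset.mul_sum, ← Finset.sum_add_distrib]
    refine Finset.sum_le_sum fun z _ => ?_
    simp only [T0]
    nlinarith [sq_nonneg (Te f (z.1 - 1, z.2) - Te f (z.1 + 1, z.2))]
  rw [h1, h2] at h3
  linarith

theorem Te_le (f : ZMod M × ZMod M → ℝ) : ∑ z, (Te f z) ^ 2 ≤ ∑ z, (f z) ^ 2 := by
  have h1 := sum_sh2 (fun z => (f z) ^ 2) 1
  have h2 := sum_sh2' (fun z => (f z) ^ 2) 1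
  have h3 : ∑ z, (Te f z) ^ 2 ≤ 1 / 2 * (∑ z : ZMod M × ZMod M, (f (z.1, z.2 - 1)) ^ 2)
      + 1 / 2 * (∑ z : ZMod M × ZMod M, (f (z.1, z.2 + 1)) ^ 2) := by
    rw [Finset.mul_sum, Finset.mul_sum, ← Finset.sum_add_distrib]
    refine Finset.sum_le_sum fun z _ => ?_
    simp only [Te]
    nlinarith [sq_nonneg (f (z.1, z.2 - 1) - f (z.1, z.2 + 1))]
  rw [h1, h2] at h3
  linarith

/-- the kernel of `b` full steps and `c - b` steps of the second coordinate -/
noncomputable def LL (b c : ℕ) (u : ZMod M × ZMod M → ℝ) (z : ZMod M × ZMod M) : ℝ :=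
  ∑ y, u y * (q1 M b (z.1 - y.1) * q1 M c (z.2 - y.2))

theorem LL_zero (u : ZMod M × ZMod M → ℝ) : LL 0 0 u = u := by
  funext z
  unfold LL
  rw [Finset.sum_eq_single z]
  · simp [q1]
  · intro y _ hy
    have : y.1 ≠ z.1 ∨ y.2 ≠ z.2 := by
      by_contra h
      push Not at h
      exact hy (Prod.ext h.1 h.2)
    rcases this with h | h
    · have h' : z.1 - y.1 ≠ 0 := fun e => h (sub_eq_zero.1 e).symm
      simp [q1, h']
    · have h' : z.2 - y.2 ≠ 0 := fun e => h (sub_eq_zero.1 e).symm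
      simp [q1, h']
  · intro h; exact absurd (Finset.mem_univ _) h

theorem Te_LL (b c : ℕ) (u : ZMod M × ZMod M → ℝ) : Te (LL b c u) = LL b (c + 1) u := by
  funext z
  simp only [Te, LL, q1]
  rw [← Finset.sum_add_distrib, Finset.sum_div]
  refine Finset.sum_congr rfl fun y _ => ?_
  have e1 : z.2 - 1 - y.2 = z.2 - y.2 - 1 := by ring
  have e2 : z.2 + 1 - y.2 = z.2 - y.2 + 1 := by ring
  rw [e1, e2]
  ring

theorem T0_LL (b c : ℕ) (u : ZMod M × ZMod M → ℝ) : T0 (LL b c u) = LL (b + 1) (c + 1) u := by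
  funext z
  rw [T0, Te_LL]
  simp only [LL]
  rw [← Finset.sum_add_distrib, Finset.sum_div]
  refine Finset.sum_congr rfl fun y _ => ?_
  have e1 : z.1 - 1 - y.1 = z.1 - y.1 - 1 := by ring
  have e2 : z.1 + 1 - y.1 = z.1 - y.1 + 1 := by ring
  rw [e1, e2]
  have e3 : q1 M (b + 1) (z.1 - y.1) = (q1 M b (z.1 - y.1 - 1) + q1 M b (z.1 - y.1 + 1)) / 2 := rfl
  rw [e3]
  ring

variable {C0 : ℝ} {N0 : ℕ}

theorem one_ne_neg_one (hM : M = 4 * N0 + 4) : (-1 : ZMod M) ≠ 1 := by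
  intro h
  have h2 : ((2 : ℕ) : ZMod M) = 0 := by
    have : (2 : ZMod M) = 1 - (-1) := by ring
    push_cast
    rw [this, h, sub_self]
  rw [ZMod.natCast_eq_zero_iff] at h2
  have := Nat.le_of_dvd (by norm_num) h2
  omega

theorem step_eq (W : Wlk (ZMod M × ZMod M) C0 N0) (hW : IsTor W) (a : ℝ)
    (f : ZMod M × ZMod M → ℝ) (z : ZMod M × ZMod M) :
    ∑ y, f y * ka W a y z = kop a f z := by
  have hne := one_ne_neg_one (M := M) hW.hM
  have hne0 : (1 : ZMod M) ≠ 0 := by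
    intro h
    apply hne
    rw [h]; simp
  -- weights of the steps
  have hq : ∀ k : ZMod M, q1 M 1 k = ((if k = 1 then (1 : ℝ) else 0) + (if k = -1 then 1 else 0)) / 2 := by
    intro k
    simp only [q1]
    have e1 : (k - 1 = 0) ↔ k = 1 := sub_eq_zero
    have e2 : (k + 1 = 0) ↔ k = -1 := add_eq_zero_iff_eq_neg
    simp only [e1, e2]
  have h1 : ∀ y : ZMod M × ZMod M, f y * ka W a y z =
      ((if z.1 - y.1 = 1 then (1 + a) else 0) + (if z.1 - y.1 = -1 then (1 - a) else 0)) / 2 *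
      (((if z.2 - y.2 = 1 then (1 : ℝ) else 0) + (if z.2 - y.2 = -1 then 1 else 0)) / 2 * f y) := by
    intro y
    rw [ka, hW.K_eq, hq, hq, sg]
    by_cases c1 : z.1 - y.1 = 1
    · have c2 : z.1 - y.1 ≠ -1 := by rw [c1]; exact hne.symm
      simp only [c1, if_true, hne.symm, if_false]
      ring
    · by_cases c2 : z.1 - y.1 = -1
      · simp only [c2, if_true, hne, if_false]
        ring
      · simp only [c1, c2, if_false]
        ring
  rw [Finset.sum_congr rfl fun y _ => h1 y, Fintype.sum_prod_type]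
  have h2 : ∀ (g : ZMod M → ℝ) (x : ZMod M), ∑ y, ((if x - y = 1 then (1 : ℝ) else 0) +
      (if x - y = -1 then 1 else 0)) / 2 * g y = (g (x - 1) + g (x + 1)) / 2 := by
    intro g x
    have e1 : ∀ y, (x - y = 1) ↔ y = x - 1 := by
      intro y
      constructor
      · intro h; rw [← h]; ring
      · intro h; rw [h]; ring
    have e2 : ∀ y, (x - y = -1) ↔ y = x + 1 := by
      intro y
      constructor
      · intro h
        have : y = x - (x - y) := by ring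
        rw [this, h]; ring
      · intro h; rw [h]; ring
    have e3 : ∀ y, ((if x - y = 1 then (1 : ℝ) else 0) +
      (if x - y = -1 then 1 else 0)) / 2 * g y = (if y = x - 1 then g y / 2 else 0) +
        (if y = x + 1 then g y / 2 else 0) := by
      intro y
      simp only [e1, e2]
      split_ifs <;> ring
    rw [Finset.sum_congr rfl fun y _ => e3 y, Finset.sum_add_distrib, Finset.sum_ite_eq',
      Finset.sum_ite_eq']
    simp only [Finset.mem_univ, if_true]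
    ring
  have h3 : ∀ (g : ZMod M → ℝ) (x : ZMod M), ∑ y, ((if x - y = 1 then (1 + a) else 0) +
      (if x - y = -1 then (1 - a) else 0)) / 2 * g y = (1 + a) / 2 * g (x - 1) + (1 - a) / 2 * g (x + 1) := by
    intro g x
    have e1 : ∀ y, (x - y = 1) ↔ y = x - 1 := by
      intro y
      constructor
      · intro h; rw [← h]; ring
      · intro h; rw [h]; ring
    have e2 : ∀ y, (x - y = -1) ↔ y = x + 1 := by
      intro y
      constructor
      · intro h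
        have : y = x - (x - y) := by ring
        rw [this, h]; ring
      · intro h; rw [h]; ring
    have e3 : ∀ y, ((if x - y = 1 then (1 + a) else 0) +
      (if x - y = -1 then (1 - a) else 0)) / 2 * g y = (if y = x - 1 then (1 + a) / 2 * g y else 0) +
        (if y = x + 1 then (1 - a) / 2 * g y else 0) := by
      intro y
      simp only [e1, e2]
      split_ifs <;> ring
    rw [Finset.sum_congr rfl fun y _ => e3 y, Finset.sum_add_distrib, Finset.sum_ite_eq',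
      Finset.sum_ite_eq']
    simp only [Finset.mem_univ, if_true]
  have h4 : ∀ x : ZMod M, ∑ y, ((if z.1 - x = 1 then (1 + a) else 0) + (if z.1 - x = -1 then (1 - a) else 0)) / 2 *
      (((if z.2 - y = 1 then (1 : ℝ) else 0) + (if z.2 - y = -1 then 1 else 0)) / 2 * f (x, y)) =
      ((if z.1 - x = 1 then (1 + a) else 0) + (if z.1 - x = -1 then (1 - a) else 0)) / 2 *
      ((f (x, z.2 - 1) + f (x, z.2 + 1)) / 2) := by
    intro x
    rw [← Finset.mul_sum, h2 (fun y => f (x, y)) z.2]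
  rw [Finset.sum_congr rfl fun x _ => h4 x, h3 (fun x => (f (x, z.2 - 1) + f (x, z.2 + 1)) / 2) z.1]
  rfl

theorem dw_succ (W : Wlk (ZMod M × ZMod M) C0 N0) (hW : IsTor W) (A : ℕ → ℝ) (T : ℕ)
    (u : ZMod M × ZMod M → ℝ) (n : ℕ) :
    dw W A T u (n + 1) = kop (A (T - n)) (dw W A T u n) := by
  funext z
  rw [← step_eq W hW]
  rfl

theorem dw_Te (W : Wlk (ZMod M × ZMod M) C0 N0) (hW : IsTor W) (A : ℕ → ℝ) (T : ℕ) (n : ℕ) :
    ∀ u : ZMod M × ZMod M → ℝ, dw W A T (Te u) n = Te (dw W A T u n) := by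
  induction n with
  | zero => intro u; rfl
  | succ n ih =>
    intro u
    rw [dw_succ W hW, dw_succ W hW, ih, Te_kop]

theorem dw_T0 (W : Wlk (ZMod M × ZMod M) C0 N0) (hW : IsTor W) (A : ℕ → ℝ) (T : ℕ) (n : ℕ) :
    ∀ u : ZMod M × ZMod M → ℝ, dw W A T (T0 u) n = T0 (dw W A T u n) := by
  induction n with
  | zero => intro u; rfl
  | succ n ih =>
    intro u
    rw [dw_succ W hW, dw_succ W hW, ih, T0_kop]

theorem dw_sq_step (W : Wlk (ZMod M × ZMod M) C0 N0) (hW : IsTor W) (A : ℕ → ℝ) (a0 : ℝ)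
    (hA : ∀ j, |A j| ≤ a0) (T : ℕ) (u : ZMod M × ZMod M → ℝ) (n : ℕ) :
    ∑ z, (dw W A T u (n + 1) z) ^ 2 ≤ (1 - a0 ^ 2) * ∑ z, (dw W A T (T0 u) n z) ^ 2 +
      a0 ^ 2 * ∑ z, (dw W A T (Te u) n z) ^ 2 := by
  rw [dw_succ W hW, kop_sq, dw_T0 W hW, dw_Te W hW]
  have h1 := T0_le (dw W A T u n)
  have h2 : A (T - n) ^ 2 ≤ a0 ^ 2 := by
    rw [← sq_abs (A (T - n))]
    exact pow_le_pow_left₀ (abs_nonneg _) (hA _) 2
  nlinarith

/-- the sum over the number of full steps -/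
noncomputable def BS (p q : ℝ) (R : ℕ → ℕ → ℝ) : ℕ → ℕ → ℕ → ℝ
  | 0, b, c => R b c
  | (n + 1), b, c => p * BS p q R n (b + 1) (c + 1) + q * BS p q R n b (c + 1)

theorem BS_eq (p q : ℝ) (R : ℕ → ℕ → ℝ) (n : ℕ) : ∀ b c, BS p q R n b c =
    ∑ B ∈ Finset.range (n + 1), (n.choose B : ℝ) * p ^ B * q ^ (n - B) * R (b + B) (c + n) := by
  induction n with
  | zero => intro b c; simp [BS]
  | succ n ih =>
    intro b c
    rw [BS, ih, ih, Finset.mul_sum, Finset.mul_sum]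
    have e1 : ∑ B ∈ Finset.range (n + 1), p * ((n.choose B : ℝ) * p ^ B * q ^ (n - B) * R (b + 1 + B) (c + 1 + n)) =
        ∑ B ∈ Finset.range (n + 1), (n.choose B : ℝ) * p ^ (B + 1) * q ^ (n - B) * R (b + (B + 1)) (c + (n + 1)) := by
      refine Finset.sum_congr rfl fun B _ => ?_
      rw [show b + 1 + B = b + (B + 1) by ring, show c + 1 + n = c + (n + 1) by ring]
      ring
    have e2 : ∑ B ∈ Finset.range (n + 1), q * ((n.choose B : ℝ) * p ^ B * q ^ (n - B) * R (b + B) (c + 1 + n)) =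
        ∑ B ∈ Finset.range (n + 1), (n.choose (B + 1) : ℝ) * p ^ (B + 1) * q ^ (n - B) * R (b + (B + 1)) (c + (n + 1)) +
          q ^ (n + 1) * R b (c + (n + 1)) := by
      rw [Finset.sum_range_succ (fun B => (n.choose (B + 1) : ℝ) * p ^ (B + 1) * q ^ (n - B) * R (b + (B + 1)) (c + (n + 1))),
        Nat.choose_succ_self, Finset.sum_range_succ' (fun B => q * ((n.choose B : ℝ) * p ^ B * q ^ (n - B) * R (b + B) (c + 1 + n)))]
      rw [show c + 1 + n = c + (n + 1) by ring]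
      simp only [Nat.cast_zero, zero_mul, add_zero, Nat.choose_zero_right, Nat.cast_one, pow_zero,
        Nat.sub_zero, one_mul, mul_one]
      have e3 : ∑ k ∈ Finset.range n, q * ((n.choose (k + 1) : ℝ) * p ^ (k + 1) * q ^ (n - (k + 1)) * R (b + (k + 1)) (c + (n + 1))) =
          ∑ k ∈ Finset.range n, (n.choose (k + 1) : ℝ) * p ^ (k + 1) * q ^ (n - k) * R (b + (k + 1)) (c + (n + 1)) := by
        refine Finset.sum_congr rfl fun k hk => ?_
        have hk' := Finset.mem_range.1 hk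
        have : n - k = (n - (k + 1)) + 1 := by omega
        rw [this, pow_succ]
        ring
      rw [e3]
      ring
    rw [e1, e2, Finset.sum_range_succ' (fun B => ((n + 1).choose B : ℝ) * p ^ B * q ^ (n + 1 - B) *
      R (b + B) (c + (n + 1))) (n + 1)]
    simp only [Nat.choose_zero_right, Nat.cast_one, pow_zero, Nat.sub_zero, one_mul, mul_one,
      add_zero, Nat.add_sub_add_right]
    have e4 : ∑ k ∈ Finset.range (n + 1), ((n + 1).choose (k + 1) : ℝ) * p ^ (k + 1) * q ^ (n - k) * R (b + (k + 1)) (c + (n + 1)) =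
        ∑ k ∈ Finset.range (n + 1), (n.choose k : ℝ) * p ^ (k + 1) * q ^ (n - k) * R (b + (k + 1)) (c + (n + 1)) +
        ∑ k ∈ Finset.range (n + 1), (n.choose (k + 1) : ℝ) * p ^ (k + 1) * q ^ (n - k) * R (b + (k + 1)) (c + (n + 1)) := by
      rw [← Finset.sum_add_distrib]
      refine Finset.sum_congr rfl fun k _ => ?_
      rw [Nat.choose_succ_succ]
      push_cast
      ring
    rw [e4]
    ring

theorem dw_sq_le (W : Wlk (ZMod M × ZMod M) C0 N0) (hW : IsTor W) (A : ℕ → ℝ) (a0 : ℝ)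
    (h0 : 0 ≤ a0) (h1 : a0 ≤ 1 / 2)
    (hA : ∀ j, |A j| ≤ a0) (T : ℕ) (u : ZMod M × ZMod M → ℝ) (n : ℕ) :
    ∀ b c, ∑ z, (dw W A T (LL b c u) n z) ^ 2 ≤
      BS (1 - a0 ^ 2) (a0 ^ 2) (fun b c => ∑ z, (LL b c u z) ^ 2) n b c := by
  induction n with
  | zero => intro b c; exact le_rfl
  | succ n ih =>
    intro b c
    refine (dw_sq_step W hW A a0 hA T _ n).trans ?_
    rw [BS, T0_LL, Te_LL]
    have hp : 0 ≤ 1 - a0 ^ 2 := by nlinarith
    exact add_le_add (mul_le_mul_of_nonneg_left (ih _ _) hp)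
      (mul_le_mul_of_nonneg_left (ih _ _) (sq_nonneg _))

theorem dw_nonneg (W : Wlk (ZMod M × ZMod M) C0 N0) (A : ℕ → ℝ) (a0 : ℝ)
    (h1 : a0 ≤ 1 / 2)
    (hA : ∀ j, |A j| ≤ a0) (T : ℕ) (u : ZMod M × ZMod M → ℝ) (hu : ∀ z, 0 ≤ u z) (n : ℕ) :
    ∀ z, 0 ≤ dw W A T u n z := by
  induction n with
  | zero => exact hu
  | succ n ih =>
    intro z
    refine Finset.sum_nonneg fun y _ => mul_nonneg (ih y) ?_
    refine mul_nonneg (W.K_nonneg _ _ _) ?_
    have hs : |sg (z.1 - y.1)| = 1 := by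
      unfold sg
      split_ifs <;> simp
    have h2 := hA (T - n)
    have h3 : |A (T - n) * sg (z.1 - y.1)| ≤ 1 / 2 := by
      rw [abs_mul, hs, mul_one]; linarith
    have := (abs_le.1 h3).1
    linarith

theorem LL_sq_mono_c (b c : ℕ) (u : ZMod M × ZMod M → ℝ) :
    ∑ z, (LL b (c + 1) u z) ^ 2 ≤ ∑ z, (LL b c u z) ^ 2 := by
  rw [← Te_LL]
  exact Te_le _

theorem LL_sq_mono_b (b c : ℕ) (u : ZMod M × ZMod M → ℝ) :
    ∑ z, (LL (b + 1) (c + 1) u z) ^ 2 ≤ ∑ z, (LL b c u z) ^ 2 := by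
  rw [← T0_LL]
  exact (T0_le _).trans (Te_le _)

theorem LL_sq_mono (b c : ℕ) (u : ZMod M × ZMod M → ℝ) (k : ℕ) : ∀ l,
    ∑ z, (LL (b + k) (c + k + l) u z) ^ 2 ≤ ∑ z, (LL b c u z) ^ 2 := by
  induction k with
  | zero =>
    intro l
    induction l with
    | zero => exact le_rfl
    | succ l ih => exact (LL_sq_mono_c _ _ u).trans ih
  | succ k ih =>
    intro l
    have := LL_sq_mono_b (b + k) (c + k + l) u
    have e : c + (k + 1) + l = c + k + l + 1 := by ring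
    rw [e]
    exact this.trans (ih l)

theorem ker_sq (b c : ℕ) : ∑ z : ZMod M × ZMod M, (q1 M b z.1 * q1 M c z.2) ^ 2 =
    q1 M (2 * b) 0 * q1 M (2 * c) 0 := by
  have h : ∀ n, q1 M (2 * n) 0 = ∑ y, (q1 M n y) ^ 2 := by
    intro n
    rw [two_mul, q1_conv]
    refine Finset.sum_congr rfl fun y _ => ?_
    rw [zero_sub, q1_neg]
    ring
  rw [h, h, Fintype.sum_prod_type, Finset.sum_mul_sum]
  refine Finset.sum_congr rfl fun x _ => Finset.sum_congr rfl fun y _ => ?_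
  ring

theorem LL_sq_le (b c : ℕ) (u : ZMod M × ZMod M → ℝ) (hu : ∀ z, 0 ≤ u z) :
    ∑ z, (LL b c u z) ^ 2 ≤ (∑ z, u z) ^ 2 * (q1 M (2 * b) 0 * q1 M (2 * c) 0) := by
  set k : ZMod M × ZMod M → ℝ := fun z => q1 M b z.1 * q1 M c z.2 with hk
  have hshift : ∀ y : ZMod M × ZMod M, ∑ z : ZMod M × ZMod M, (k (z.1 - y.1, z.2 - y.2)) ^ 2 = ∑ z, (k z) ^ 2 := by
    intro y
    have h1 := sum_sh1' (fun z => (k (z.1, z.2 - y.2)) ^ 2) y.1
    have h2 := sum_sh2' (fun z => (k z) ^ 2) y.2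
    rw [h1, h2]
  have hL : ∀ z, LL b c u z = ∑ y, u y * k (z.1 - y.1, z.2 - y.2) := fun z => rfl
  rw [← ker_sq]
  have h1 : ∀ z, (LL b c u z) ^ 2 ≤ (∑ y, u y) * ∑ y, u y * (k (z.1 - y.1, z.2 - y.2)) ^ 2 := by
    intro z
    rw [hL]
    have := Finset.sum_sq_le_sum_mul_sum_of_sq_le_mul (Finset.univ : Finset (ZMod M × ZMod M))
      (r := fun y => u y * k (z.1 - y.1, z.2 - y.2)) (f := fun y => u y)
      (g := fun y => u y * (k (z.1 - y.1, z.2 - y.2)) ^ 2) (fun y _ => hu y)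
      (fun y _ => mul_nonneg (hu y) (sq_nonneg _)) (fun y _ => le_of_eq (by ring))
    exact this
  calc ∑ z, (LL b c u z) ^ 2 ≤ ∑ z : ZMod M × ZMod M, (∑ y, u y) * ∑ y, u y * (k (z.1 - y.1, z.2 - y.2)) ^ 2 :=
        Finset.sum_le_sum fun z _ => h1 z
    _ = (∑ y, u y) * ∑ y, u y * ∑ z : ZMod M × ZMod M, (k (z.1 - y.1, z.2 - y.2)) ^ 2 := by
        rw [← Finset.mul_sum, Finset.sum_comm]
        congr 1
        refine Finset.sum_congr rfl fun y _ => ?_
        rw [Finset.mul_sum]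
    _ = (∑ z, u z) ^ 2 * ∑ z : ZMod M × ZMod M, (k z) ^ 2 := by
        have e : ∑ y, u y * ∑ z : ZMod M × ZMod M, (k (z.1 - y.1, z.2 - y.2)) ^ 2 =
            ∑ y, u y * ∑ z, (k z) ^ 2 := Finset.sum_congr rfl fun y _ => by rw [hshift y]
        rw [e, ← Finset.sum_mul]
        ring

theorem ov_eq (W : Wlk (ZMod M × ZMod M) C0 N0) (hW : IsTor W) (u : ZMod M × ZMod M → ℝ) (m : ℕ) :
    ov W u m = ∑ z, (LL m m u z) ^ 2 := by
  unfold ov wt LL
  refine Finset.sum_congr rfl fun z _ => ?_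
  congr 1
  refine Finset.sum_congr rfl fun y _ => ?_
  rw [hW.K_eq]

/-- normalised central binomial coefficient -/
noncomputable def cc (n : ℕ) : ℝ := (Nat.centralBinom n : ℝ) / 4 ^ n

theorem cc_pos (n : ℕ) : 0 < cc n := by
  unfold cc
  have := Nat.centralBinom_pos n
  positivity

theorem cc_succ (n : ℕ) : ((n : ℝ) + 1) * cc n ≤ ((n : ℝ) + 2) * cc (n + 1) := by
  have h := Nat.succ_mul_centralBinom_succ n
  have h' : ((n : ℝ) + 1) * (Nat.centralBinom (n + 1) : ℝ) =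
      2 * (2 * n + 1) * (Nat.centralBinom n : ℝ) := by exact_mod_cast h
  have h2 : ((n : ℝ) + 1) * cc (n + 1) = (2 * n + 1) / 2 * cc n := by
    unfold cc
    rw [pow_succ]
    field_simp
    linarith
  have hc := cc_pos n
  have hn : (0 : ℝ) < (n : ℝ) + 1 := by positivity
  have h3 : ((n : ℝ) + 1) * (((n : ℝ) + 1) * cc n) ≤ ((n : ℝ) + 1) * (((n : ℝ) + 2) * cc (n + 1)) := by
    have e : ((n : ℝ) + 1) * (((n : ℝ) + 2) * cc (n + 1)) = ((n : ℝ) + 2) * ((2 * n + 1) / 2 * cc n) := by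
      rw [← h2]; ring
    rw [e]
    have : ((n : ℝ) + 1) * ((n : ℝ) + 1) ≤ ((n : ℝ) + 2) * ((2 * n + 1) / 2) := by
      have : (0 : ℝ) ≤ n := Nat.cast_nonneg n
      nlinarith
    calc ((n : ℝ) + 1) * (((n : ℝ) + 1) * cc n) = (((n : ℝ) + 1) * ((n : ℝ) + 1)) * cc n := by ring
      _ ≤ (((n : ℝ) + 2) * ((2 * n + 1) / 2)) * cc n := by gcongr
      _ = ((n : ℝ) + 2) * ((2 * n + 1) / 2 * cc n) := by ring
  exact le_of_mul_le_mul_left h3 hn

theorem cc_mono (B : ℕ) (k : ℕ) : ((B : ℝ) + 1) * cc B ≤ (((B + k : ℕ) : ℝ) + 1) * cc (B + k) := by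
  induction k with
  | zero => exact le_rfl
  | succ k ih =>
    refine ih.trans ?_
    have := cc_succ (B + k)
    have e : B + (k + 1) = B + k + 1 := by ring
    rw [e]
    have e2 : (((B + k + 1 : ℕ) : ℝ) + 1) = ((B + k : ℕ) : ℝ) + 2 := by push_cast; ring
    rw [e2]
    exact this

theorem q1_cc (hM : M = 4 * N0 + 4) (n : ℕ) (hn : n ≤ N0) : q1 M (2 * n) 0 = cc n := by
  obtain ⟨C, _, h⟩ := t_TORA
  have h2 := (h N0 M hM).2.2.2.2.1 n hn
  have h3 : q1 M (2 * n) 0 ^ 2 = (cc n) ^ 2 := by rw [h2]; rfl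
  exact (pow_left_inj₀ (q1_nonneg M _ _) (cc_pos n).le (by norm_num)).1 h3

theorem binom_sum (p q : ℝ) (hp : 0 < p) (hq : 0 ≤ q) (hpq : p + q = 1) (n : ℕ) :
    ∑ B ∈ Finset.range (n + 1), (n.choose B : ℝ) * p ^ B * q ^ (n - B) * (((n : ℝ) + 1) / ((B : ℝ) + 1)) ≤
      1 / p := by
  have h1 : ∀ B ∈ Finset.range (n + 1),
      (n.choose B : ℝ) * p ^ B * q ^ (n - B) * (((n : ℝ) + 1) / ((B : ℝ) + 1)) =
      (p ^ (B + 1) * q ^ (n + 1 - (B + 1)) * ((n + 1).choose (B + 1) : ℝ)) / p := by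
    intro B _
    have h := Nat.add_one_mul_choose_eq n B
    have h' : ((n : ℝ) + 1) * (n.choose B : ℝ) = ((n + 1).choose (B + 1) : ℝ) * ((B : ℝ) + 1) := by
      exact_mod_cast h
    have hB : (0 : ℝ) < (B : ℝ) + 1 := by positivity
    rw [Nat.add_sub_add_right, pow_succ]
    field_simp
    linear_combination (q ^ (n - B)) * h'
  rw [Finset.sum_congr rfl h1, ← Finset.sum_div]
  have h2 := add_pow p q (n + 1)
  rw [hpq, one_pow, Finset.sum_range_succ'] at h2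
  have h3 : 0 ≤ p ^ 0 * q ^ (n + 1 - 0) * ((n + 1).choose 0 : ℝ) := by positivity
  gcongr
  linarith

theorem t_NB : S_NB := by
  intro C0 N0 M _ W hW A a0 T n u h0 h1 hA hnT hnN hu
  have hp : 0 < 1 - a0 ^ 2 := by nlinarith
  have hp1 : 1 - a0 ^ 2 ≤ 1 := by nlinarith
  have hq : 0 ≤ a0 ^ 2 := sq_nonneg _
  have key := dw_sq_le W hW A a0 h0 h1 hA T u n 0 0
  rw [LL_zero, BS_eq] at key
  simp only [zero_add] at key
  refine ⟨dw_nonneg W A a0 h1 hA T u hu n, key.trans ?_, fun hn1 => key.trans ?_⟩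
  · have hb : ∀ B ∈ Finset.range (n + 1),
        (n.choose B : ℝ) * (1 - a0 ^ 2) ^ B * (a0 ^ 2) ^ (n - B) * ∑ z, (LL B n u z) ^ 2 ≤
        (∑ z, u z) ^ 2 * rr n *
          ((n.choose B : ℝ) * (1 - a0 ^ 2) ^ B * (a0 ^ 2) ^ (n - B) * (((n : ℝ) + 1) / ((B : ℝ) + 1))) := by
      intro B hB
      have hB' : B ≤ n := by have := Finset.mem_range.1 hB; omega
      have e1 := LL_sq_le B n u hu
      rw [q1_cc hW.hM B (by omega), q1_cc hW.hM n hnN] at e1
      have e2 := cc_mono B (n - B)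
      have e3 : B + (n - B) = n := by omega
      rw [e3] at e2
      have hBp : (0 : ℝ) < (B : ℝ) + 1 := by positivity
      have e4 : cc B ≤ ((n : ℝ) + 1) / ((B : ℝ) + 1) * cc n := by
        rw [div_mul_eq_mul_div, le_div_iff₀ hBp]
        linarith
      have hcn := cc_pos n
      have e5 : ∑ z, (LL B n u z) ^ 2 ≤ (∑ z, u z) ^ 2 * rr n * (((n : ℝ) + 1) / ((B : ℝ) + 1)) := by
        refine e1.trans ?_
        have : rr n = cc n * cc n := by unfold rr cc; ring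
        rw [this]
        calc (∑ z, u z) ^ 2 * (cc B * cc n) ≤
            (∑ z, u z) ^ 2 * ((((n : ℝ) + 1) / ((B : ℝ) + 1) * cc n) * cc n) := by gcongr
          _ = _ := by ring
      calc (n.choose B : ℝ) * (1 - a0 ^ 2) ^ B * (a0 ^ 2) ^ (n - B) * ∑ z, (LL B n u z) ^ 2
          ≤ (n.choose B : ℝ) * (1 - a0 ^ 2) ^ B * (a0 ^ 2) ^ (n - B) *
            ((∑ z, u z) ^ 2 * rr n * (((n : ℝ) + 1) / ((B : ℝ) + 1))) := by gcongr
        _ = _ := by ring
    refine (Finset.sum_le_sum hb).trans ?_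
    rw [← Finset.mul_sum]
    have hs := binom_sum (1 - a0 ^ 2) (a0 ^ 2) hp hq (by ring) n
    have hr : 0 ≤ rr n := by unfold rr; positivity
    calc (∑ z, u z) ^ 2 * rr n * _ ≤ (∑ z, u z) ^ 2 * rr n * (1 / (1 - a0 ^ 2)) := by gcongr
      _ = _ := by ring
  · set m := (n + 1) / 2 with hm
    have hmn : m ≤ n := by omega
    rw [ov_eq W hW]
    set O := ∑ z, (LL m m u z) ^ 2 with hO
    have hO0 : 0 ≤ O := Finset.sum_nonneg fun z _ => sq_nonneg _
    set U := ∑ z, (u z) ^ 2 with hU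
    have hU0 : 0 ≤ U := Finset.sum_nonneg fun z _ => sq_nonneg _
    have hb : ∀ B ∈ Finset.range (n + 1),
        (n.choose B : ℝ) * (1 - a0 ^ 2) ^ B * (a0 ^ 2) ^ (n - B) * ∑ z, (LL B n u z) ^ 2 ≤
        O * ((1 - a0 ^ 2) ^ B * (a0 ^ 2) ^ (n - B) * (n.choose B : ℝ)) +
          (n.choose B : ℝ) * (a0 ^ n * U) := by
      intro B hB
      have hB' : B ≤ n := by have := Finset.mem_range.1 hB; omega
      by_cases hc : m ≤ B
      · have e1 : ∑ z, (LL B n u z) ^ 2 ≤ O := by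
          have := LL_sq_mono m m u (B - m) (n - B)
          have e2 : m + (B - m) = B := by omega
          have e3 : B + (n - B) = n := by omega
          rw [e2, e3] at this
          exact this
        have e4 : 0 ≤ (n.choose B : ℝ) * (a0 ^ n * U) := by positivity
        have e5 : (n.choose B : ℝ) * (1 - a0 ^ 2) ^ B * (a0 ^ 2) ^ (n - B) * ∑ z, (LL B n u z) ^ 2 ≤
            (n.choose B : ℝ) * (1 - a0 ^ 2) ^ B * (a0 ^ 2) ^ (n - B) * O := by gcongr
        calc _ ≤ _ := e5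
          _ = O * ((1 - a0 ^ 2) ^ B * (a0 ^ 2) ^ (n - B) * (n.choose B : ℝ)) := by ring
          _ ≤ _ := by linarith
      · have hc' : n ≤ 2 * (n - B) := by omega
        have e1 : ∑ z, (LL B n u z) ^ 2 ≤ U := by
          have := LL_sq_mono 0 0 u B (n - B)
          have e3 : 0 + B + (n - B) = n := by omega
          rw [e3, LL_zero, zero_add] at this
          exact this
        have e2 : (a0 ^ 2) ^ (n - B) ≤ a0 ^ n := by
          rw [← pow_mul]
          exact pow_le_pow_of_le_one h0 (by linarith) hc'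
        have e3 : (1 - a0 ^ 2) ^ B ≤ 1 := pow_le_one₀ hp.le hp1
        have e4 : 0 ≤ O * ((1 - a0 ^ 2) ^ B * (a0 ^ 2) ^ (n - B) * (n.choose B : ℝ)) := by positivity
        calc (n.choose B : ℝ) * (1 - a0 ^ 2) ^ B * (a0 ^ 2) ^ (n - B) * ∑ z, (LL B n u z) ^ 2
            ≤ (n.choose B : ℝ) * 1 * a0 ^ n * U := by gcongr
          _ = (n.choose B : ℝ) * (a0 ^ n * U) := by ring
          _ ≤ _ := by linarith
    refine (Finset.sum_le_sum hb).trans ?_
    rw [Finset.sum_add_distrib, ← Finset.mul_sum, ← Finset.sum_mul, ← add_pow]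
    have e1 : ∑ B ∈ Finset.range (n + 1), (n.choose B : ℝ) = 2 ^ n := by
      exact_mod_cast Nat.sum_range_choose n
    rw [e1, mul_pow]
    have e2 : (1 - a0 ^ 2 + a0 ^ 2) = 1 := by ring
    rw [e2, one_pow, mul_one, mul_assoc]

end Pool.Agent.H92.CW
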