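import Mathlib
import Pool.Agent.H964.CW.Stm2

/-! # Project CW: second moment from a stretched exponential tail (TLI) -/

set_option autoImplicit false

open MeasureTheory

namespace Pool.Agent.H92.CW

open Pool.Agent.H964.QC Pool.Agent.H964.CW

/-- pointwise layer bound -/
theorem layer (y u0 u1 : ℝ) (h0 : 1 ≤ u0) (h1 : u0 ≤ u1) :
    (max y 0) ^ 2 ≤ u0 ^ 2 + (∑ k ∈ Finset.range (⌊u1 - u0⌋₊ + 1),
      (2 * (u0 + k) + 1) * (if u0 + k < y then 1 else 0) + y ^ 2 * (if u1 < y then 1 else 0)) := by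
  have hterm : ∀ k : ℕ, 0 ≤ (2 * (u0 + (k : ℝ)) + 1) * (if u0 + k < y then (1 : ℝ) else 0) := by
    intro k
    have : (0 : ℝ) ≤ k := Nat.cast_nonneg k
    split_ifs <;> nlinarith
  by_cases c1 : u1 < y
  · have hs : 0 ≤ ∑ k ∈ Finset.range (⌊u1 - u0⌋₊ + 1),
      (2 * (u0 + k) + 1) * (if u0 + k < y then (1 : ℝ) else 0) := Finset.sum_nonneg fun k _ => hterm k
    have hm : max y 0 = y := max_eq_left (by linarith)
    rw [hm]
    simp only [c1, if_true]
    nlinarith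
  · simp only [c1, if_false, mul_zero, add_zero]
    by_cases c2 : y ≤ u0
    · have hs : 0 ≤ ∑ k ∈ Finset.range (⌊u1 - u0⌋₊ + 1),
        (2 * (u0 + k) + 1) * (if u0 + k < y then (1 : ℝ) else 0) := Finset.sum_nonneg fun k _ => hterm k
      have hm : max y 0 ≤ u0 := max_le c2 (by linarith)
      have hm0 : 0 ≤ max y 0 := le_max_right _ _
      nlinarith
    · push Not at c1 c2
      set m := ⌈y - u0⌉₊ with hm
      have hy : y ≤ u0 + m := by
        have := Nat.le_ceil (y - u0)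
        linarith
      have hmK : m ≤ ⌊u1 - u0⌋₊ + 1 := by
        rw [hm, Nat.ceil_le]
        have := Nat.lt_floor_add_one (u1 - u0)
        push_cast
        linarith
      have hsum : ∀ j : ℕ, ∑ k ∈ Finset.range j, (2 * (u0 + (k : ℝ)) + 1) = (u0 + j) ^ 2 - u0 ^ 2 := by
        intro j
        induction j with
        | zero => simp
        | succ j ih => rw [Finset.sum_range_succ, ih]; push_cast; ring
      have h3 : ∑ k ∈ Finset.range m, (2 * (u0 + (k : ℝ)) + 1) ≤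
          ∑ k ∈ Finset.range (⌊u1 - u0⌋₊ + 1), (2 * (u0 + k) + 1) * (if u0 + k < y then (1 : ℝ) else 0) := by
        have e : ∑ k ∈ Finset.range m, (2 * (u0 + (k : ℝ)) + 1) =
            ∑ k ∈ Finset.range m, (2 * (u0 + (k : ℝ)) + 1) * (if u0 + k < y then (1 : ℝ) else 0) := by
          refine Finset.sum_congr rfl fun k hk => ?_
          have hk' := Finset.mem_range.1 hk
          rw [hm, Nat.lt_ceil] at hk'
          have : u0 + (k : ℝ) < y := by linarith
          simp only [this, if_true, mul_one]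
        rw [e]
        exact Finset.sum_le_sum_of_subset_of_nonneg (Finset.range_subset_range.2 hmK)
          fun k _ _ => hterm k
      rw [hsum] at h3
      have hmax : max y 0 = y := max_eq_left (by linarith)
      rw [hmax]
      have : y ^ 2 ≤ (u0 + m) ^ 2 := by
        apply pow_le_pow_left₀ (by linarith) hy
      linarith

/-- constant -/
noncomputable def c1 : ℝ := 2 ^ 30 * (Nat.factorial 30 : ℝ) * Real.exp (1 / 2)

theorem c1_pos : 0 < c1 := by unfold c1; positivity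

theorem pow_exp_bound (y : ℝ) (hy : 1 ≤ y) : y ^ 60 * Real.exp (-(y ^ 2)) ≤ c1 * Real.exp (-y) := by
  have h1 : (y ^ 2 / 2) ^ 30 / (Nat.factorial 30 : ℝ) ≤ Real.exp (y ^ 2 / 2) :=
    Real.pow_div_factorial_le_exp (y ^ 2 / 2) (by positivity) 30
  have hf : (0 : ℝ) < (Nat.factorial 30 : ℝ) := by positivity
  rw [div_le_iff₀ hf] at h1
  have h2 : y ^ 60 ≤ 2 ^ 30 * (Nat.factorial 30 : ℝ) * Real.exp (y ^ 2 / 2) := by
    have e : y ^ 60 = 2 ^ 30 * (y ^ 2 / 2) ^ 30 := by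
      rw [div_pow, ← pow_mul]
      field_simp
    rw [e]
    calc 2 ^ 30 * (y ^ 2 / 2) ^ 30 ≤ 2 ^ 30 * (Real.exp (y ^ 2 / 2) * (Nat.factorial 30 : ℝ)) := by gcongr
      _ = _ := by ring
  calc y ^ 60 * Real.exp (-(y ^ 2)) ≤
      (2 ^ 30 * (Nat.factorial 30 : ℝ) * Real.exp (y ^ 2 / 2)) * Real.exp (-(y ^ 2)) := by gcongr
    _ = 2 ^ 30 * (Nat.factorial 30 : ℝ) * Real.exp (-(y ^ 2) / 2) := by
        rw [mul_assoc, ← Real.exp_add]
        congr 2
        ring
    _ ≤ 2 ^ 30 * (Nat.factorial 30 : ℝ) * Real.exp (1 / 2 + -y) := by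
        gcongr
        nlinarith [sq_nonneg (y - 1)]
    _ = c1 * Real.exp (-y) := by
        rw [Real.exp_add]
        unfold c1
        ring

theorem term_bound (x : ℝ) (hx : 1 ≤ x) :
    x ^ 3 * Real.exp (-(x ^ (1 / 10 : ℝ))) ≤ c1 * Real.exp (-(x ^ (1 / 20 : ℝ))) := by
  have hx0 : 0 ≤ x := by linarith
  set y := x ^ (1 / 20 : ℝ) with hy
  have hy1 : 1 ≤ y := Real.one_le_rpow hx (by norm_num)
  have e1 : x ^ 3 = y ^ 60 := by
    rw [hy, ← Real.rpow_natCast (x ^ (1 / 20 : ℝ)) 60, ← Real.rpow_mul hx0, ← Real.rpow_natCast x 3]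
    norm_num
  have e2 : x ^ (1 / 10 : ℝ) = y ^ 2 := by
    rw [hy, ← Real.rpow_natCast (x ^ (1 / 20 : ℝ)) 2, ← Real.rpow_mul hx0]
    norm_num
  rw [e1, e2]
  exact pow_exp_bound y hy1

theorem sum_inv_sq (K : ℕ) : ∑ k ∈ Finset.range K, 1 / ((k : ℝ) + 1) ^ 2 ≤ 2 * (1 - 1 / ((K : ℝ) + 1)) := by
  induction K with
  | zero => norm_num
  | succ K ih =>
    rw [Finset.sum_range_succ]
    have h : (0 : ℝ) < (K : ℝ) + 1 := by positivity
    have h2 : (0 : ℝ) < (K : ℝ) + 1 + 1 := by positivity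
    have h0 : (0 : ℝ) ≤ K := Nat.cast_nonneg K
    push_cast
    have e : 2 * (1 - 1 / ((K : ℝ) + 1 + 1)) - 2 * (1 - 1 / ((K : ℝ) + 1)) - 1 / ((K : ℝ) + 1) ^ 2 =
        K / (((K : ℝ) + 1) ^ 2 * ((K : ℝ) + 1 + 1)) := by
      field_simp
      ring
    have e2 : 0 ≤ (K : ℝ) / (((K : ℝ) + 1) ^ 2 * ((K : ℝ) + 1 + 1)) := by positivity
    linarith

/-- sum of the layers -/
theorem layers_sum (u0 : ℝ) (h0 : 1 ≤ u0) (K : ℕ) (p : ℕ → ℝ)
    (hp : ∀ k ∈ Finset.range K, p k ≤ Real.exp (-((u0 + k) ^ (1 / 10 : ℝ)))) :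
    ∑ k ∈ Finset.range K, (2 * (u0 + (k : ℝ)) + 1) * p k ≤ 6 * c1 * Real.exp (-(u0 ^ (1 / 20 : ℝ))) := by
  have hc := c1_pos
  have h1 : ∀ k ∈ Finset.range K, (2 * (u0 + (k : ℝ)) + 1) * p k ≤
      3 * c1 * Real.exp (-(u0 ^ (1 / 20 : ℝ))) * (1 / ((k : ℝ) + 1) ^ 2) := by
    intro k hk
    have hk0 : (0 : ℝ) ≤ k := Nat.cast_nonneg k
    have hx : 1 ≤ u0 + (k : ℝ) := by linarith
    have hx0 : 0 < u0 + (k : ℝ) := by linarith
    have h2 := term_bound (u0 + k) hx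
    have h3 : (2 * (u0 + (k : ℝ)) + 1) * p k ≤ 3 * (u0 + k) * Real.exp (-((u0 + k) ^ (1 / 10 : ℝ))) := by
      calc (2 * (u0 + (k : ℝ)) + 1) * p k ≤ (2 * (u0 + (k : ℝ)) + 1) * Real.exp (-((u0 + k) ^ (1 / 10 : ℝ))) :=
            mul_le_mul_of_nonneg_left (hp k hk) (by linarith)
        _ ≤ 3 * (u0 + k) * Real.exp (-((u0 + k) ^ (1 / 10 : ℝ))) := by
            apply mul_le_mul_of_nonneg_right _ (Real.exp_pos _).le
            linarith
    have h4 : 3 * (u0 + (k : ℝ)) * Real.exp (-((u0 + k) ^ (1 / 10 : ℝ))) =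
        3 * ((u0 + k) ^ 3 * Real.exp (-((u0 + k) ^ (1 / 10 : ℝ)))) * (1 / (u0 + k) ^ 2) := by
      field_simp
    have h5 : Real.exp (-((u0 + (k : ℝ)) ^ (1 / 20 : ℝ))) ≤ Real.exp (-(u0 ^ (1 / 20 : ℝ))) := by
      apply Real.exp_le_exp.2
      have := Real.rpow_le_rpow (by linarith : (0 : ℝ) ≤ u0) (by linarith : u0 ≤ u0 + (k : ℝ))
        (by norm_num : (0 : ℝ) ≤ 1 / 20)
      linarith
    have h6 : 1 / (u0 + (k : ℝ)) ^ 2 ≤ 1 / ((k : ℝ) + 1) ^ 2 := by
      apply one_div_le_one_div_of_le (by positivity)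
      apply pow_le_pow_left₀ (by linarith)
      linarith
    calc (2 * (u0 + (k : ℝ)) + 1) * p k
        ≤ 3 * ((u0 + k) ^ 3 * Real.exp (-((u0 + k) ^ (1 / 10 : ℝ)))) * (1 / (u0 + k) ^ 2) := by
          rw [← h4]; exact h3
      _ ≤ 3 * (c1 * Real.exp (-(u0 ^ (1 / 20 : ℝ)))) * (1 / ((k : ℝ) + 1) ^ 2) := by
          apply mul_le_mul _ h6 (by positivity) (by positivity)
          apply mul_le_mul_of_nonneg_left _ (by norm_num)
          exact h2.trans (mul_le_mul_of_nonneg_left h5 hc.le)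
      _ = _ := by ring
  refine (Finset.sum_le_sum h1).trans ?_
  rw [← Finset.mul_sum]
  have h2 := sum_inv_sq K
  have h3 : ∑ k ∈ Finset.range K, 1 / ((k : ℝ) + 1) ^ 2 ≤ 2 := by
    have : (0 : ℝ) ≤ 1 / ((K : ℝ) + 1) := by positivity
    linarith
  calc 3 * c1 * Real.exp (-(u0 ^ (1 / 20 : ℝ))) * ∑ k ∈ Finset.range K, 1 / ((k : ℝ) + 1) ^ 2
      ≤ 3 * c1 * Real.exp (-(u0 ^ (1 / 20 : ℝ))) * 2 := by gcongr
    _ = _ := by ring

theorem core {Ω : Type} [MeasurableSpace Ω] (P : Measure Ω) [IsProbabilityMeasure P]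
    (Y : Ω → ℝ) (hm : Measurable Y) (F u0 u1 : ℝ) (A : Set Ω) (hY : MemLp Y 4 P)
    (hF : ∫ ω, Y ω ^ 4 ∂P ≤ F) (h0 : 1 ≤ u0) (h1 : u0 ≤ u1)
    (ht : ∀ u, u0 ≤ u → u ≤ u1 → P.real {ω | u < Y ω} ≤ Real.exp (-(u ^ (1 / 10 : ℝ))))
    (hA : MeasurableSet A) :
    ∫ ω in A, (max (Y ω) 0) ^ 2 ∂P ≤ u0 ^ 2 * P.real A + 6 * c1 * Real.exp (-(u0 ^ (1 / 20 : ℝ))) +
      Real.sqrt F * Real.exp (-(u1 ^ (1 / 10 : ℝ)) / 2) := by
  have hY2 : MemLp Y 2 P := hY.mono_exponent (by norm_num)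
  have i2 : Integrable (fun ω => Y ω ^ 2) P := hY2.integrable_sq
  have i4 : Integrable (fun ω => Y ω ^ 4) P := by
    have h := MemLp.integrable_norm_pow (p := 4) (by exact_mod_cast hY) (by norm_num)
    have e : (fun ω => ‖Y ω‖ ^ 4) = fun ω => Y ω ^ 4 := by
      funext ω
      rw [Real.norm_eq_abs]
      exact (by decide : Even 4).pow_abs _
    rw [e] at h
    exact h
  have hset : ∀ u : ℝ, MeasurableSet {ω | u < Y ω} := fun u => measurableSet_lt measurable_const hm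
  -- indicators
  have hind : ∀ u : ℝ, (fun ω => if u < Y ω then (1 : ℝ) else 0) = Set.indicator {ω | u < Y ω} (fun _ => (1 : ℝ)) := by
    intro u
    funext ω
    by_cases h : u < Y ω
    · rw [if_pos h, Set.indicator_of_mem (by exact h)]
    · rw [if_neg h, Set.indicator_of_notMem (by exact h)]
  have iind : ∀ u : ℝ, Integrable (fun ω => if u < Y ω then (1 : ℝ) else 0) P := by
    intro u
    rw [hind]
    exact (integrable_const (1 : ℝ)).indicator (hset u)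
  have vind : ∀ u : ℝ, ∫ ω, (if u < Y ω then (1 : ℝ) else 0) ∂P = P.real {ω | u < Y ω} := by
    intro u
    rw [hind, integral_indicator_const _ (hset u)]
    simp
  set K := ⌊u1 - u0⌋₊ + 1 with hK
  set g : Ω → ℝ := fun ω => ∑ k ∈ Finset.range K, (2 * (u0 + k) + 1) * (if u0 + k < Y ω then 1 else 0) with hg
  set B := {ω | u1 < Y ω} with hB
  have ig : Integrable g P := by
    apply integrable_finsetSum
    intro k _
    exact (iind _).const_mul _
  have it : Integrable (fun ω => Y ω ^ 2 * (if u1 < Y ω then 1 else 0)) P := by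
    have e : (fun ω => Y ω ^ 2 * (if u1 < Y ω then (1 : ℝ) else 0)) = Set.indicator B (fun ω => Y ω ^ 2) := by
      funext ω
      by_cases h : u1 < Y ω
      · rw [if_pos h, mul_one, Set.indicator_of_mem (by exact h)]
      · rw [if_neg h, mul_zero, Set.indicator_of_notMem (by exact h)]
    rw [e]
    exact i2.indicator (hset u1)
  have imax : Integrable (fun ω => (max (Y ω) 0) ^ 2) P := by
    refine i2.mono' ((hm.max measurable_const).pow_const 2).aestronglyMeasurable ?_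
    refine Filter.Eventually.of_forall fun ω => ?_
    rw [Real.norm_eq_abs, abs_of_nonneg (sq_nonneg _)]
    rcases le_total (Y ω) 0 with h | h
    · rw [max_eq_right h]; nlinarith [sq_nonneg (Y ω)]
    · rw [max_eq_left h]
  have igt : Integrable (fun ω => g ω + Y ω ^ 2 * (if u1 < Y ω then 1 else 0)) P := ig.add it
  have h3 : ∫ ω in A, (max (Y ω) 0) ^ 2 ∂P ≤
      ∫ ω in A, (u0 ^ 2 + (g ω + Y ω ^ 2 * (if u1 < Y ω then 1 else 0))) ∂P := by
    apply integral_mono imax.integrableOn ((integrable_const _).add igt).integrableOn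
    intro ω
    exact layer (Y ω) u0 u1 h0 h1
  have h4 : ∫ ω in A, (u0 ^ 2 + (g ω + Y ω ^ 2 * (if u1 < Y ω then 1 else 0))) ∂P =
      u0 ^ 2 * P.real A + ∫ ω in A, (g ω + Y ω ^ 2 * (if u1 < Y ω then 1 else 0)) ∂P := by
    rw [integral_add (integrable_const _).integrableOn igt.integrableOn]
    congr 1
    rw [setIntegral_const, smul_eq_mul, mul_comm]
  have h5 : ∫ ω in A, (g ω + Y ω ^ 2 * (if u1 < Y ω then 1 else 0)) ∂P ≤
      ∫ ω, (g ω + Y ω ^ 2 * (if u1 < Y ω then 1 else 0)) ∂P := by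
    apply setIntegral_le_integral igt
    refine Filter.Eventually.of_forall fun ω => ?_
    have a1 : 0 ≤ g ω := by
      apply Finset.sum_nonneg
      intro k _
      have : (0 : ℝ) ≤ k := Nat.cast_nonneg k
      split_ifs <;> nlinarith
    have a2 : 0 ≤ Y ω ^ 2 * (if u1 < Y ω then (1 : ℝ) else 0) := by
      split_ifs <;> positivity
    exact add_nonneg a1 a2
  have h6 : ∫ ω, (g ω + Y ω ^ 2 * (if u1 < Y ω then 1 else 0)) ∂P =
      ∑ k ∈ Finset.range K, (2 * (u0 + (k : ℝ)) + 1) * P.real {ω | u0 + k < Y ω} +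
        ∫ ω, Y ω ^ 2 * (if u1 < Y ω then 1 else 0) ∂P := by
    rw [integral_add ig it, hg, integral_finsetSum _ fun k _ => (iind _).const_mul _]
    congr 1
    refine Finset.sum_congr rfl fun k _ => ?_
    rw [integral_const_mul, vind]
  have h7 := layers_sum u0 h0 K (fun k => P.real {ω | u0 + k < Y ω}) (by
    intro k hk
    apply ht
    · have : (0 : ℝ) ≤ k := Nat.cast_nonneg k
      linarith
    · have hk' : k ≤ ⌊u1 - u0⌋₊ := by have := Finset.mem_range.1 hk; omega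
      have h8 : (k : ℝ) ≤ u1 - u0 :=
        (Nat.cast_le.2 hk').trans (Nat.floor_le (by linarith))
      linarith)
  -- Cauchy-Schwarz
  set I := ∫ ω, Y ω ^ 2 * (if u1 < Y ω then (1 : ℝ) else 0) ∂P with hI
  have h8 : I ^ 2 ≤ (P.real B) * ∫ ω, Y ω ^ 4 ∂P := by
    have hq : ∀ x : ℝ, 0 ≤ (P.real B) * (x * x) + (-2 * I) * x + ∫ ω, Y ω ^ 4 ∂P := by
      intro x
      have e : ∫ ω, (Y ω ^ 2 - x * (if u1 < Y ω then (1 : ℝ) else 0)) ^ 2 ∂P =
          (P.real B) * (x * x) + (-2 * I) * x + ∫ ω, Y ω ^ 4 ∂P := by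
        have e1 : ∀ ω, (Y ω ^ 2 - x * (if u1 < Y ω then (1 : ℝ) else 0)) ^ 2 =
            (x * x) * (if u1 < Y ω then (1 : ℝ) else 0) +
              ((-2 * x) * (Y ω ^ 2 * (if u1 < Y ω then (1 : ℝ) else 0)) + Y ω ^ 4) := by
          intro ω
          split_ifs <;> ring
        have j1 : Integrable (fun ω => (-2 * x) * (Y ω ^ 2 * (if u1 < Y ω then (1 : ℝ) else 0)) + Y ω ^ 4) P :=
          (it.const_mul _).add i4
        rw [integral_congr_ae (Filter.Eventually.of_forall e1),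
          integral_add ((iind u1).const_mul _) j1,
          integral_add (it.const_mul _) i4, integral_const_mul, integral_const_mul, vind]
        ring
      rw [← e]
      exact integral_nonneg fun ω => sq_nonneg _
    have hd := discrim_le_zero hq
    unfold discrim at hd
    nlinarith
  have h9 : I ≤ Real.sqrt F * Real.exp (-(u1 ^ (1 / 10 : ℝ)) / 2) := by
    have hB1 : P.real B ≤ Real.exp (-(u1 ^ (1 / 10 : ℝ))) := ht u1 h1 le_rfl
    have hI4 : 0 ≤ ∫ ω, Y ω ^ 4 ∂P := integral_nonneg fun ω => by positivity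
    have h10 : I ^ 2 ≤ Real.exp (-(u1 ^ (1 / 10 : ℝ))) * F := by
      refine h8.trans ?_
      apply mul_le_mul hB1 hF hI4 (Real.exp_pos _).le
    have h11 : I ≤ Real.sqrt (Real.exp (-(u1 ^ (1 / 10 : ℝ))) * F) := Real.le_sqrt_of_sq_le h10
    rw [Real.sqrt_mul (Real.exp_pos _).le, mul_comm] at h11
    have h12 : Real.sqrt (Real.exp (-(u1 ^ (1 / 10 : ℝ)))) = Real.exp (-(u1 ^ (1 / 10 : ℝ)) / 2) := by
      rw [← Real.exp_half]
    rw [h12] at h11
    exact h11
  rw [h4] at h3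
  rw [h6] at h5
  linarith

theorem t_TLI : S_TLI := by
  refine ⟨max 1 (6 * c1), le_max_left _ _, ?_⟩
  intro Ω _ P _ Y F u0 u1 A hY hF h0 h1 ht hA
  set Y' := hY.1.mk Y with hY'
  have hm : Measurable Y' := hY.1.stronglyMeasurable_mk.measurable
  have hae : Y =ᵐ[P] Y' := hY.1.ae_eq_mk
  have hL : MemLp Y' 4 P := (memLp_congr_ae hae).1 hY
  have hF' : ∫ ω, Y' ω ^ 4 ∂P ≤ F := by
    have e : ∫ ω, Y ω ^ 4 ∂P = ∫ ω, Y' ω ^ 4 ∂P :=
      integral_congr_ae (hae.mono fun ω h => by change Y ω ^ 4 = Y' ω ^ 4; rw [h])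
    rw [← e]
    exact hF
  have ht' : ∀ u, u0 ≤ u → u ≤ u1 → P.real {ω | u < Y' ω} ≤ Real.exp (-(u ^ (1 / 10 : ℝ))) := by
    intro u hu0 hu1
    have e : P.real {ω | u < Y' ω} = P.real {ω | u < Y ω} := by
      apply measureReal_congr
      filter_upwards [hae] with ω h
      apply propext
      change (u < Y' ω) ↔ (u < Y ω)
      rw [h]
    rw [e]
    exact ht u hu0 hu1
  have key := core P Y' hm F u0 u1 A hL hF' h0 h1 ht' hA
  have e2 : ∫ ω in A, (max (Y ω) 0) ^ 2 ∂P = ∫ ω in A, (max (Y' ω) 0) ^ 2 ∂P := by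
    apply integral_congr_ae
    exact (ae_restrict_of_ae hae).mono fun ω h => by
      change (max (Y ω) 0) ^ 2 = (max (Y' ω) 0) ^ 2
      rw [h]
  rw [e2]
  refine key.trans ?_
  have : 6 * c1 * Real.exp (-(u0 ^ (1 / 20 : ℝ))) ≤ max 1 (6 * c1) * Real.exp (-(u0 ^ (1 / 20 : ℝ))) :=
    mul_le_mul_of_nonneg_right (le_max_right _ _) (Real.exp_pos _).le
  linarith

end Pool.Agent.H92.CW
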